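import Mathlib

set_option autoImplicit false

namespace Pool.Agent.Results.MP_b6be33_co.Thirteen

/-- `P` is an isomorphism-permutation of `G`: an isomorphism from `G` onto its complement. -/
def IsoPerm {V : Type} (G : SimpleGraph V) (P : Equiv.Perm V) : Prop :=
  ∀ u v, u ≠ v → (G.Adj u v ↔ ¬ G.Adj (P u) (P v))

/-- `G` is self-complementary. -/
def SelfComplementary {V : Type} (G : SimpleGraph V) : Prop := ∃ P, IsoPerm G P

/-- `G` is regular of degree `d`. -/
def Regular {V : Type} (G : SimpleGraph V) (d : ℕ) : Prop := ∀ v, (G.neighborSet v).ncard = d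

/-- The number of triangles of `G` containing the vertex `v`. -/
noncomputable def triangles {V : Type} (G : SimpleGraph V) (v : V) : ℕ :=
  {s : Finset V | G.IsNClique 3 s ∧ v ∈ s}.ncard

/-- The set `F(G)` of the vertices fixed by some isomorphism-permutation. -/
def F {V : Type} (G : SimpleGraph V) : Set V := {v | ∃ P, IsoPerm G P ∧ P v = v}

/-! ### The example -/

def rows : List ℕ := [2900, 7436, 1475, 5714, 4457, 7760, 317, 7940, 215, 3241, 686, 4771, 2234]

def adj (u v : ℕ) : Bool := (rows.getD u 0).testBit v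

/-- The example on thirteen vertices. -/
def G : SimpleGraph (Fin 13) where
  Adj u v := adj u.val v.val = true
  symm := ⟨by decide⟩
  loopless := ⟨by decide⟩

instance : DecidableRel G.Adj := fun u v => inferInstanceAs (Decidable (adj u.val v.val = true))

/-- An isomorphism-permutation with the cycles `(0)(1 2 3 4)(5 6 7 8)(9 10 11 12)`. -/
def P0 : Equiv.Perm (Fin 13) where
  toFun := ![0, 2, 3, 4, 1, 6, 7, 8, 5, 10, 11, 12, 9]
  invFun := ![0, 4, 1, 2, 3, 8, 5, 6, 7, 12, 9, 10, 11]
  left_inv := by unfold Function.LeftInverse; decide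
  right_inv := by unfold Function.RightInverse Function.LeftInverse; decide

theorem P0_iso : IsoPerm G P0 := by
  unfold IsoPerm
  decide +kernel

theorem G_regular : Regular G 6 := by
  intro v
  have h : G.neighborSet v = ((Finset.univ.filter (fun u => G.Adj v u) : Finset (Fin 13)) :
      Set (Fin 13)) := by
    ext u
    simp
  rw [h, Set.ncard_coe_finset]
  clear h
  revert v
  decide +kernel

theorem triangles_nine : triangles G 9 = 6 := by
  unfold triangles
  have h : {s : Finset (Fin 13) | G.IsNClique 3 s ∧ (9 : Fin 13) ∈ s} =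
      (((Finset.powersetCard 3 (Finset.univ : Finset (Fin 13))).filter
        (fun s => (∀ a ∈ s, ∀ b ∈ s, a ≠ b → G.Adj a b) ∧ (9 : Fin 13) ∈ s) :
          Finset (Finset (Fin 13))) : Set (Finset (Fin 13))) := by
    ext s
    rw [Finset.coe_filter, Set.mem_ofPred_eq, Set.mem_ofPred_eq, Finset.mem_powersetCard,
      SimpleGraph.isNClique_iff, SimpleGraph.isClique_iff]
    constructor
    · rintro ⟨⟨h1, h2⟩, h3⟩
      exact ⟨⟨Finset.subset_univ _, h2⟩,
        fun a ha b hb hab => h1 (Finset.mem_coe.2 ha) (Finset.mem_coe.2 hb) hab, h3⟩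
    · rintro ⟨⟨_, h2⟩, h1, h3⟩
      exact ⟨⟨fun a ha b hb hab => h1 a (Finset.mem_coe.1 ha) b (Finset.mem_coe.1 hb) hab, h2⟩, h3⟩
  rw [h, Set.ncard_coe_finset]
  decide +kernel

/-- ordered pairs completing `u` to a triangle -/
def T (u : Fin 13) : Finset (Fin 13 × Fin 13) :=
  Finset.univ.filter fun p => G.Adj u p.1 ∧ G.Adj u p.2 ∧ G.Adj p.1 p.2

/-- ordered pairs completing `u` to a triangle of the complement -/
def T' (u : Fin 13) : Finset (Fin 13 × Fin 13) :=
  Finset.univ.filter fun p => (u ≠ p.1 ∧ u ≠ p.2 ∧ p.1 ≠ p.2) ∧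
    ¬ G.Adj u p.1 ∧ ¬ G.Adj u p.2 ∧ ¬ G.Adj p.1 p.2

theorem T_eq (P : Equiv.Perm (Fin 13)) (hP : IsoPerm G P) (u : Fin 13) :
    (T u).card = (T' (P u)).card := by
  apply Finset.card_bij (fun p _ => (P p.1, P p.2))
  · intro p hp
    simp only [T, T', Finset.mem_filter, Finset.mem_univ, true_and] at hp ⊢
    obtain ⟨h1, h2, h3⟩ := hp
    exact ⟨⟨fun h => h1.ne (P.injective h), fun h => h2.ne (P.injective h),
      fun h => h3.ne (P.injective h)⟩, (hP _ _ h1.ne).1 h1, (hP _ _ h2.ne).1 h2,
      (hP _ _ h3.ne).1 h3⟩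
  · rintro ⟨a, b⟩ _ ⟨c, d⟩ _ h
    rw [Prod.mk.injEq] at h
    exact Prod.ext (P.injective h.1) (P.injective h.2)
  · rintro ⟨a, b⟩ hp
    simp only [T', Finset.mem_filter, Finset.mem_univ, true_and] at hp
    obtain ⟨⟨n1, n2, n3⟩, h1, h2, h3⟩ := hp
    refine ⟨(P.symm a, P.symm b), ?_, by simp⟩
    simp only [T, Finset.mem_filter, Finset.mem_univ, true_and]
    refine ⟨?_, ?_, ?_⟩
    · rw [hP _ _ (fun h => n1 (by rw [h, Equiv.apply_symm_apply])), Equiv.apply_symm_apply]
      exact h1
    · rw [hP _ _ (fun h => n2 (by rw [h, Equiv.apply_symm_apply])), Equiv.apply_symm_apply]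
      exact h2
    · rw [hP _ _ (fun h => n3 (P.symm.injective h)), Equiv.apply_symm_apply,
        Equiv.apply_symm_apply]
      exact h3

theorem T_nbr : ∀ u, G.Adj 9 u → (T u).card ≠ 14 := by decide +kernel

theorem T'_one : (T' 1).card = 14 := by decide +kernel

theorem nine_not_mem : (9 : Fin 13) ∉ F G := by
  rintro ⟨P, hP, h9⟩
  have hu : P (P.symm 1) = 1 := Equiv.apply_symm_apply _ _
  have hne : (9 : Fin 13) ≠ P.symm 1 := by
    intro h
    rw [← h, h9] at hu
    exact absurd hu (by decide)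
  have hadj : G.Adj 9 (P.symm 1) := by
    rw [hP _ _ hne, h9, hu]
    decide +kernel
  apply T_nbr _ hadj
  rw [T_eq P hP, hu, T'_one]

/-- Disproof of Q1 (with `k = 3`): the graph `G` on `13` vertices is regular of degree `6` and
self-complementary, and its vertex `9` lies in exactly `6 = k (k - 1)` triangles, but no
isomorphism-permutation of `G` fixes it. -/
theorem result :
    (Regular G 6 ∧ SelfComplementary G ∧ triangles G 9 = 3 * (3 - 1) ∧ (9 : Fin 13) ∉ F G) ∧
    ¬ ∀ (k d : ℕ) (V : Type) (_ : Finite V) (G : SimpleGraph V), Nat.card V = 4 * k + 1 →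
        Regular G d → SelfComplementary G → ∀ v : V, triangles G v = k * (k - 1) → v ∈ F G := by
  refine ⟨⟨G_regular, ⟨P0, P0_iso⟩, triangles_nine, nine_not_mem⟩, fun h => ?_⟩
  exact nine_not_mem (h 3 6 (Fin 13) inferInstance G (by rw [Nat.card_eq_fintype_card,
    Fintype.card_fin]) G_regular ⟨P0, P0_iso⟩ 9 triangles_nine)

end Pool.Agent.Results.MP_b6be33_co.Thirteen
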